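import Mathlib
import Pool.Agent.H59.CJ4

set_option autoImplicit false

namespace Pool.Agent.Results.MP_54f1ce_nt.Cao

open Finset Pool.Agent.H59.CJ

/-- value of the finite simple continued fraction `c₁ + 1/(c₂ + 1/(⋯ + 1/c_λ))` -/
def cfVal : List ℕ → ℚ
  | [] => 0
  | [c] => c
  | c :: d :: r => c + 1 / cfVal (d :: r)

/-- `L` is a simple continued fraction expansion of `x` with positive partial quotients and
last partial quotient `> 1` -/
def IsCF (L : List ℕ) (x : ℚ) : Prop :=
  L ≠ [] ∧ (∀ c ∈ L, 0 < c) ∧ (∀ c, L.getLast? = some c → 1 < c) ∧ cfVal L = x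

/-- `λ(n)`: the length of the (unique) expansion of `p/n` -/
noncomputable def lam (p n : ℕ) : ℕ :=
  sInf {k : ℕ | ∃ L : List ℕ, IsCF L ((p : ℚ) / n) ∧ L.length = k}

/-- `N(p) = |M_p|` -/
noncomputable def N (p : ℕ) : ℕ :=
  ((Ioo 0 p).filter (fun n : ℕ => jacobiSym n p = (-1) ^ lam p n)).card

/-- `N̄(p) = |M̄_p|` -/
noncomputable def Nbar (p : ℕ) : ℕ :=
  ((Ioo 0 p).filter (fun n : ℕ => jacobiSym n p = (-1) ^ (lam p n + 1))).card

lemma exists_cf (b : ℕ) : ∀ a : ℕ, 0 < b → b < a → ∃ L, IsCF L ((a : ℚ) / b) := by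
  induction b using Nat.strong_induction_on with
  | _ b ih =>
    intro a hb hab
    have hb' : (b : ℚ) ≠ 0 := by exact_mod_cast hb.ne'
    have hq : 0 < a / b := Nat.div_pos hab.le hb
    have hd := Nat.div_add_mod a b
    have hd' : (a : ℚ) = b * ((a / b : ℕ) : ℚ) + ((a % b : ℕ) : ℚ) := by exact_mod_cast hd.symm
    rcases Nat.eq_zero_or_pos (a % b) with h | h
    · refine ⟨[a / b], by simp, by simpa using hq, ?_, ?_⟩
      · intro c hc
        simp only [List.getLast?_singleton, Option.some.injEq] at hc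
        subst hc
        by_contra h1
        have : a / b = 1 := by omega
        rw [this] at hd; omega
      · rw [cfVal, hd', h]; field_simp; simp
    · obtain ⟨L, h1, h2, h3, h4⟩ := ih (a % b) (Nat.mod_lt _ hb) b h (Nat.mod_lt _ hb)
      obtain ⟨d, r, rfl⟩ := List.exists_cons_of_ne_nil h1
      refine ⟨(a / b) :: d :: r, by simp, ?_, ?_, ?_⟩
      · intro c hc
        rcases List.mem_cons.1 hc with rfl | hc
        · exact hq
        · exact h2 c hc
      · intro c hc
        rw [List.getLast?_cons_cons] at hc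
        exact h3 c hc
      · have hr : ((a % b : ℕ) : ℚ) ≠ 0 := by exact_mod_cast h.ne'
        rw [cfVal, h4]
        generalize ((a / b : ℕ) : ℚ) = q at *
        generalize ((a % b : ℕ) : ℚ) = s at *
        rw [hd']; field_simp

lemma cf_struct (L : List ℕ) : L ≠ [] → (∀ c ∈ L, 0 < c) → (∀ c, L.getLast? = some c → 1 < c) →
    ∃ P Q P' Q' : ℕ, 0 < P ∧ 0 < Q ∧ 0 < P' ∧ cfVal L = (P : ℚ) / Q ∧
      (P : ℤ) * Q' - P' * Q = (-1) ^ L.length ∧ 2 * P' ≤ P ∧ 2 * Q' ≤ Q := by
  induction L with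
  | nil => intro h; exact absurd rfl h
  | cons c r ih =>
    intro _ h2 h3
    have hc : 0 < c := h2 c (by simp)
    cases r with
    | nil =>
      have := h3 c (by simp)
      exact ⟨c, 1, 1, 0, hc, by norm_num, by norm_num, by simp [cfVal], by simp, by omega,
        by omega⟩
    | cons d r =>
      obtain ⟨P, Q, P', Q', a1, a2, a3, a4, a5, a6, a7⟩ := ih (by simp)
        (fun x hx => h2 x (List.mem_cons_of_mem _ hx))
        (fun x hx => h3 x (by rw [List.getLast?_cons_cons]; exact hx))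
      refine ⟨c * P + Q, P, c * P' + Q', P', by positivity, a1, by positivity, ?_, ?_, ?_, a6⟩
      · have b1 : (P : ℚ) ≠ 0 := by exact_mod_cast a1.ne'
        have b2 : (Q : ℚ) ≠ 0 := by exact_mod_cast a2.ne'
        rw [cfVal, a4]; push_cast; field_simp
      · rw [List.length_cons (as := d :: r), pow_succ, ← a5]; push_cast; ring
      · nlinarith

lemma parity {p n : ℕ} (hn : 0 < n) (hnp : n < p) (hc : Nat.Coprime n p) :
    ∃ m : ℕ, 0 < m ∧ 2 * m ≤ p ∧ (p : ℤ) ∣ (n : ℤ) * m - (-1) ^ (lam p n + 1) := by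
  obtain ⟨L0, hL0⟩ := exists_cf n p hn hnp
  have hne : {k : ℕ | ∃ L : List ℕ, IsCF L ((p : ℚ) / n) ∧ L.length = k}.Nonempty :=
    ⟨_, L0, hL0, rfl⟩
  obtain ⟨L, ⟨h1, h2, h3, h4⟩, hl⟩ := Nat.sInf_mem hne
  obtain ⟨P, Q, P', Q', a1, a2, a3, a4, a5, a6, -⟩ := cf_struct L h1 h2 h3
  have hl' : L.length = lam p n := hl
  rw [hl'] at a5
  have b1 : (n : ℚ) ≠ 0 := by exact_mod_cast hn.ne'
  have b2 : (Q : ℚ) ≠ 0 := by exact_mod_cast a2.ne'
  rw [a4, div_eq_div_iff b2 b1] at h4
  have h5 : P * n = p * Q := by exact_mod_cast h4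
  have hPQ : Nat.Coprime P Q := by
    rw [← Nat.isCoprime_iff_coprime]
    refine ⟨(-1) ^ lam p n * Q', -((-1) ^ lam p n * P'), ?_⟩
    have : ((-1 : ℤ) ^ lam p n) * (-1) ^ lam p n = 1 := by rw [← mul_pow]; simp
    linear_combination ((-1 : ℤ) ^ lam p n) * a5 + this
  have e1 : P = p := Nat.dvd_antisymm (hPQ.dvd_of_dvd_mul_right ⟨n, h5.symm⟩)
    (hc.symm.dvd_of_dvd_mul_right ⟨Q, h5⟩)
  subst e1
  have e2 : n = Q := Nat.eq_of_mul_eq_mul_left a1 h5
  subst e2
  exact ⟨P', a3, a6, Q', by rw [pow_succ, ← a5]; ring⟩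

def inv (p n : ℕ) : ℕ := ((n : ZMod p)⁻¹).val

def sg (p u : ℕ) : ℤ := if 2 * u < p then 1 else -1

lemma inv_facts {p n : ℕ} (hp : 1 < p) (hnp : n < p) (hc : Nat.Coprime n p) :
    inv p n < p ∧ Nat.Coprime (inv p n) p ∧ inv p (inv p n) = n ∧
      jacobiSym (inv p n) p = jacobiSym n p := by
  have : NeZero p := ⟨by omega⟩
  have h1 : (n : ZMod p) * ((inv p n : ℕ) : ZMod p) = 1 := by
    rw [inv, ZMod.natCast_zmod_val]; exact ZMod.coe_mul_inv_eq_one n hc
  have h2 : Nat.Coprime (inv p n) p := by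
    rw [← ZMod.isUnit_iff_coprime]; exact IsUnit.of_mul_eq_one_right _ h1
  refine ⟨ZMod.val_lt _, h2, ?_, ?_⟩
  · rw [inv, ZMod.inv_eq_of_mul_eq_one p _ (n : ZMod p) (by rw [mul_comm]; exact h1),
      ZMod.val_cast_of_lt hnp]
  · have h3 : jacobiSym n p * jacobiSym (inv p n) p = 1 := by
      rw [← jacobiSym.mul_left, ← jacobiSym.one_left p]
      apply jacobiSym.mod_left'
      apply (ZMod.intCast_eq_intCast_iff' _ _ _).1
      push_cast; exact h1
    rcases jacobiSym.trichotomy n p with h | h | h <;> rw [h] at h3 ⊢ <;> omega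

lemma sign_eq {p n : ℕ} (h3 : p % 4 = 3) (hn : 0 < n) (hnp : n < p) (hc : Nat.Coprime n p) :
    (-1 : ℤ) ^ (lam p n + 1) = sg p (inv p n) := by
  have : NeZero p := ⟨by omega⟩
  obtain ⟨m, m0, m1, hd⟩ := parity hn hnp hc
  have hz := (ZMod.intCast_zmod_eq_zero_iff_dvd _ p).2 hd
  rcases neg_one_pow_eq_or ℤ (lam p n + 1) with h | h
  · rw [h] at hz ⊢
    push_cast at hz
    have : inv p n = m := by
      rw [inv, ZMod.inv_eq_of_mul_eq_one p _ (m : ZMod p) (sub_eq_zero.1 hz),
        ZMod.val_cast_of_lt (by omega)]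
    rw [this, sg, if_pos (by omega)]
  · rw [h] at hz ⊢
    push_cast at hz
    have : inv p n = p - m := by
      rw [inv, ZMod.inv_eq_of_mul_eq_one p _ ((p - m : ℕ) : ZMod p) (by
        rw [Nat.cast_sub (by omega), ZMod.natCast_self]; linear_combination -hz),
        ZMod.val_cast_of_lt (by omega)]
    rw [this, sg, if_neg (by omega)]

theorem result (p : ℕ) (hp : 3 < p) (h3 : p % 4 = 3) : N p ≤ Nbar p ∧ 2 ≤ N p := by
  have : NeZero p := ⟨by omega⟩
  have hzero : ∀ n : ℕ, ¬ Nat.Coprime n p → jacobiSym n p = 0 := by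
    intro n hn
    rw [jacobiSym.eq_zero_iff_not_coprime, Int.gcd_natCast_natCast]; exact hn
  have hpos : ∀ n : ℕ, Nat.Coprime n p → 0 < n := by
    intro n hn
    rcases Nat.eq_zero_or_pos n with rfl | h
    · rw [Nat.coprime_zero_left] at hn; omega
    · exact h
  obtain ⟨h, hh⟩ : ∃ h, p = 2 * h + 1 := ⟨p / 2, by omega⟩
  constructor
  · have e1 : (Nbar p : ℤ) - N p = ∑ n ∈ Ioo 0 p, jacobiSym n p * (-1) ^ (lam p n + 1) := by
      rw [N, Nbar, card_filter, card_filter]
      push_cast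
      rw [← sum_sub_distrib]
      apply sum_congr rfl
      intro n _
      rw [pow_succ]
      rcases neg_one_pow_eq_or ℤ (lam p n) with a | a <;>
        rcases jacobiSym.trichotomy n p with b | b | b <;> rw [a, b] <;> norm_num
    set U := (range p).filter (fun n => Nat.Coprime n p) with hU
    have e2 : ∑ n ∈ Ioo 0 p, jacobiSym n p * (-1) ^ (lam p n + 1) =
        ∑ n ∈ U, jacobiSym (inv p n) p * sg p (inv p n) := by
      rw [← sum_filter_of_ne (p := fun n => Nat.Coprime n p)]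
      · apply sum_congr
        · ext n
          simp only [hU, mem_filter, mem_Ioo, mem_range]
          exact ⟨fun a => ⟨a.1.2, a.2⟩, fun a => ⟨⟨hpos n a.2, a.1⟩, a.2⟩⟩
        · intro n hn
          simp only [hU, mem_filter, mem_range] at hn
          rw [sign_eq h3 (hpos n hn.2) hn.1 hn.2, (inv_facts (by omega) hn.1 hn.2).2.2.2]
      · intro n _ hne
        by_contra hc
        exact hne (by rw [hzero n hc, zero_mul])
    have e3 : ∑ n ∈ U, jacobiSym (inv p n) p * sg p (inv p n) =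
        ∑ n ∈ U, jacobiSym n p * sg p n := by
      apply sum_nbij' (inv p) (inv p)
      all_goals
        intro n hn
        simp only [hU, mem_filter, mem_range] at hn ⊢
      · exact ⟨(inv_facts (by omega) hn.1 hn.2).1, (inv_facts (by omega) hn.1 hn.2).2.1⟩
      · exact ⟨(inv_facts (by omega) hn.1 hn.2).1, (inv_facts (by omega) hn.1 hn.2).2.1⟩
      · exact (inv_facts (by omega) hn.1 hn.2).2.2.1
      · exact (inv_facts (by omega) hn.1 hn.2).2.2.1
    have e4 : ∑ n ∈ U, jacobiSym n p * sg p n = ∑ n ∈ range p, jacobiSym n p * sg p n := by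
      apply sum_filter_of_ne
      intro n _ hne
      by_contra hc
      exact hne (by rw [hzero n hc, zero_mul])
    have e5 := split1 (fun n : ℕ => jacobiSym n p * sg p n) h
    rw [← hh] at e5
    have e6 : ∑ x ∈ range h, jacobiSym ((x + 1 : ℕ) : ℤ) p * sg p (x + 1) =
        ∑ x ∈ range h, jacobiSym ((x + 1 : ℕ) : ℤ) p := by
      apply sum_congr rfl
      intro x hx
      rw [mem_range] at hx
      rw [sg, if_pos (by omega), mul_one]
    have e7 : ∑ x ∈ range h, jacobiSym ((p - (x + 1) : ℕ) : ℤ) p * sg p (p - (x + 1)) =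
        ∑ x ∈ range h, jacobiSym ((x + 1 : ℕ) : ℤ) p := by
      apply sum_congr rfl
      intro x hx
      rw [mem_range] at hx
      rw [sg, if_neg (by omega), J_refl h3 (by omega)]; ring
    have e8 := half_nonneg h3
    rw [half_eq h3, show p / 2 = h by omega] at e8
    rw [e6, e7, hzero 0 (by rw [Nat.coprime_zero_left]; omega), zero_mul] at e5
    omega
  · obtain ⟨m, m0, m1, m2⟩ : ∃ m : ℕ, 0 < m ∧ 2 * m < p ∧ jacobiSym m p = -1 := by
      by_cases h2 : jacobiSym 2 p = -1
      · exact ⟨2, by norm_num, by omega, by exact_mod_cast h2⟩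
      · refine ⟨h, by omega, by omega, ?_⟩
        have a1 := J_refl h3 (x := 1) (by omega)
        rw [show p - 1 = 2 * h by omega] at a1
        push_cast at a1
        rw [jacobiSym.mul_left, jacobiSym.one_left] at a1
        rcases jacobiSym.trichotomy 2 p with b | b | b
        · rw [b] at a1; omega
        · rw [b] at a1; omega
        · exact absurd b h2
    have key : ∀ v : ℕ, v < p → jacobiSym v p * sg p v = -1 →
        inv p (inv p v) = v ∧ inv p v ∈
          (Ioo 0 p).filter (fun n : ℕ => jacobiSym n p = (-1) ^ lam p n) := by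
      intro v hv hj
      have hc : Nat.Coprime v p := by
        by_contra hc
        rw [hzero v hc] at hj; omega
      obtain ⟨a1, a2, a3, a4⟩ := inv_facts (by omega) hv hc
      refine ⟨a3, ?_⟩
      simp only [mem_filter, mem_Ioo]
      refine ⟨⟨hpos _ a2, a1⟩, ?_⟩
      have a5 := sign_eq h3 (hpos _ a2) a1 a2
      rw [a3, pow_succ] at a5
      rw [a4]
      rw [← a5] at hj
      rcases neg_one_pow_eq_or ℤ (lam p (inv p v)) with a | a <;> rw [a] at hj ⊢ <;> omega
    obtain ⟨b1, b2⟩ := key m (by omega) (by rw [m2, sg, if_pos m1]; norm_num)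
    obtain ⟨c1, c2⟩ := key (p - m) (by omega)
      (by rw [J_refl h3 (by omega), m2, sg, if_neg (by omega)]; norm_num)
    apply one_lt_card.2
    refine ⟨_, b2, _, c2, ?_⟩
    intro he
    rw [he, c1] at b1
    omega

end Pool.Agent.Results.MP_54f1ce_nt.Cao
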